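import Pool.Agent.W799.SRLMain

/-!
The strong ratio limit of a subcritical and a critical heat kernel fails: there are a subcritical
operator `P₊` and a critical operator `P₀` on `ℝ` for which `k_{P₊} / k_{P₀}` is unbounded on a
compact set as `t → ∞`.
-/

set_option autoImplicit false
open Set Filter Topology MeasureTheory
open scoped ContDiff

namespace Pool.Agent.Results.MP_13e997_an.RatioLimitFails

open Pool.Agent.W799.SRL

theorem result : ∃ (Pp P0 : Op) (K : Set (ℝ × ℝ)),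
    Pp.Elliptic ∧ P0.Elliptic ∧ Pp.Nonneg ∧ P0.Nonneg ∧ IsCompact K ∧
    (∃ k, IsHeatKernel Pp k) ∧
    (∀ u : ℝ → ℝ, ContDiff ℝ 2 u → (∀ x, 0 < u x) → (∀ x, 0 ≤ P0.app u x) → ∀ x y, u x = u y) ∧
    (∀ k k0, IsHeatKernel Pp k → IsHeatKernel P0 k0 → Subcritical k ∧ ¬ Subcritical k0 ∧
      ¬ TendstoUniformlyOn (fun t p => k p.1 p.2 t / k0 p.1 p.2 t) (fun _ => 0) atTop K ∧
      ∀ C T : ℝ, ∃ t ≥ T, ∃ p ∈ K, C < k p.1 p.2 t / k0 p.1 p.2 t) ∧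
    (∃ f : ℝ → ℝ, Continuous f ∧ HasCompactSupport f ∧ (∀ x, 0 ≤ f x) ∧
      ∀ k, IsHeatKernel Pp k → ∀ C T : ℝ, ∃ t ≥ T, ∃ w, IsSuper P0 w ∧ (∀ x, f x ≤ w x 0) ∧
        C * w 0 t < ∫ y, k 0 y t * f y) :=
  main

end Pool.Agent.Results.MP_13e997_an.RatioLimitFails
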